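import Pool.Agent.Y703.CT.Defs

/-!
# Project CT, one more prime: the combinatorial part
-/

set_option autoImplicit false

namespace Pool.Agent.Y261.CT

open Pool.Agent.Y703.CT

theorem zmod3 : ∀ c c' : ZMod 3, c' ≠ c → c' = c + 1 ∨ c' = c + 2 := by decide

theorem zmod3' : ∀ c : ZMod 3, c + 1 ≠ c ∧ c + 2 ≠ c ∧ c + 1 ≠ c + 2 ∧ c + 2 ≠ c + 1 := by decide

theorem cls_mul {D p : ℕ} (hD : Cls D) (hp : p.Prime) (hpD : ¬ p ∣ D) (hp1 : p ≡ 1 [MOD (9 * D)]) :
    Cls (D * p) ∧ p % 3 = 1 := by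
  obtain ⟨⟨h0, h3, hcf⟩, h91, h98, q, hq, hq2, hqD, hall⟩ := hD
  have h9 : p % 9 = 1 := by
    have h := Nat.ModEq.of_mul_right D hp1
    exact h
  have hp3 : p % 3 = 1 := by omega
  refine ⟨⟨⟨mul_ne_zero h0 hp.ne_zero, ?_, ?_⟩, ?_, ?_, q, hq, hq2, hqD.mul_right _, ?_⟩, hp3⟩
  · intro h
    rcases (Nat.prime_three.dvd_mul).1 h with h | h
    · exact h3 h
    · omega
  · intro r hr h
    by_cases hrp : r = p
    · subst hrp
      have h1 : r * r ^ 2 ∣ r * D := by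
        rw [mul_comm r D]
        exact (by ring : r * r ^ 2 = r ^ 3) ▸ h
      have h2 : r ^ 2 ∣ D := Nat.dvd_of_mul_dvd_mul_left hr.pos h1
      exact hpD ((dvd_pow_self r (by norm_num)).trans h2)
    · have h1 : Nat.Coprime (r ^ 3) p := Nat.Coprime.pow_left 3 ((Nat.coprime_primes hr hp).2 hrp)
      exact hcf r hr (h1.dvd_of_dvd_mul_right h)
  · rw [Nat.mul_mod, h9]
    omega
  · rw [Nat.mul_mod, h9]
    omega
  · intro r hr hrd hrq
    rcases (hr.dvd_mul).1 hrd with h | h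
    · exact hall r hr h hrq
    · rw [(Nat.prime_dvd_prime_iff_eq hr hp).1 h]
      exact hp3

theorem noSplit_mul {D p : ℕ} (hD : D ≠ 0) (hN : NoSplit D) (hp : p.Prime) (hpD : ¬ p ∣ D)
    (hp1 : p ≡ 1 [MOD (9 * D)]) (hcube : ∀ x : ℤ, ¬ (p : ℤ) ∣ (D : ℤ) - x ^ 3) :
    NoSplit (D * p) := by
  classical
  intro d hd hcop hcond
  obtain ⟨c0, hc0⟩ : ∃ c0, p ∣ d c0 := by
    have h1 : p ∣ ∏ c, d c := by
      rw [hd]
      exact dvd_mul_left _ _
    obtain ⟨c0, _, h⟩ := (hp.prime.dvd_finset_prod_iff _).1 h1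
    exact ⟨c0, h⟩
  obtain ⟨e, he⟩ := hc0
  set d' : ZMod 3 → ℕ := Function.update d c0 e with hd'
  have hd0 : d' c0 = e := Function.update_self _ _ _
  have hdn : ∀ c, c ≠ c0 → d' c = d c := fun c hc => Function.update_of_ne hc _ _
  have hprod : ∏ c, d' c = D := by
    have h1 : p * ∏ c, d' c = ∏ c, d c := by
      rw [← Finset.mul_prod_erase Finset.univ d' (Finset.mem_univ c0),
        ← Finset.mul_prod_erase Finset.univ d (Finset.mem_univ c0), hd0, he, mul_assoc]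
      congr 2
      exact Finset.prod_congr rfl fun c hc => hdn c (Finset.ne_of_mem_erase hc)
    rw [hd, mul_comm D p] at h1
    exact Nat.eq_of_mul_eq_mul_left hp.pos h1
  have hdvd : ∀ c, d' c ∣ d c := by
    intro c
    by_cases hc : c = c0
    · subst hc
      rw [hd0, he]
      exact dvd_mul_left _ _
    · rw [hdn c hc]
  have hdD : ∀ c, d' c ∣ D := fun c => by
    rw [← hprod]
    exact Finset.dvd_prod_of_mem d' (Finset.mem_univ c)
  have hcongr : ∀ r : ℕ, r ∣ D → ∀ c, (d c : ℤ) ≡ (d' c : ℤ) [ZMOD r] := by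
    intro r hr c
    by_cases hc : c = c0
    · subst hc
      rw [hd0, he]
      have h1 : (p : ℤ) ≡ 1 [ZMOD r] := by
        have h2 : p ≡ 1 [MOD r] := hp1.of_dvd (hr.trans (dvd_mul_left _ _))
        exact_mod_cast (Int.natCast_modEq_iff.2 h2)
      have h3 := h1.mul_right (e : ℤ)
      push_cast
      simpa using h3
    · rw [hdn c hc]
  obtain ⟨c1, hc1⟩ := hN d' hprod (fun c c' hcc =>
    Nat.Coprime.coprime_dvd_left (hdvd c) (Nat.Coprime.coprime_dvd_right (hdvd c') (hcop c c' hcc)))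
    (by
      intro c r hr hrc
      obtain ⟨x, hx⟩ := hcond c r hr (hrc.trans (hdvd c))
      refine ⟨x, ?_⟩
      have h1 := hcongr r (hrc.trans (hdD c))
      have h2 : (d (c + 1) : ℤ) * (d (c + 2) : ℤ) ^ 2 ≡ (d' (c + 1) : ℤ) * (d' (c + 2) : ℤ) ^ 2 [ZMOD r] :=
        (h1 _).mul ((h1 _).pow 2)
      have h3 := (h2.sub_right (x ^ 3)).dvd
      have h4 := dvd_add h3 hx
      rwa [sub_add_cancel] at h4)
  by_cases h01 : c1 = c0
  · subst h01
    exact ⟨c1, fun c' hc' => by rw [← hdn c' hc']; exact hc1 c' hc'⟩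
  · exfalso
    have he1 : e = 1 := by
      rw [← hd0]
      exact hc1 c0 (Ne.symm h01)
    have hD1 : d' c1 = D := by
      rw [← hprod, Finset.prod_eq_single c1 (fun c _ hc => hc1 c hc)
        (fun h => absurd (Finset.mem_univ _) h)]
    have hdc1 : d c1 = D := by rw [← hdn c1 h01, hD1]
    have hoth : ∀ c, c ≠ c0 → c ≠ c1 → d c = 1 := fun c h0 h1 => by rw [← hdn c h0]; exact hc1 c h1
    obtain ⟨x, hx⟩ := hcond c0 p hp (he ▸ dvd_mul_right _ _)
    rcases zmod3 c0 c1 h01 with h | h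
    · have h2 : d (c0 + 2) = 1 := hoth _ (zmod3' c0).2.1 (by rw [h]; exact (zmod3' c0).2.2.2)
      rw [← h, hdc1, h2] at hx
      exact hcube x (by simpa using hx)
    · have h2 : d (c0 + 1) = 1 := hoth _ (zmod3' c0).1 (by rw [h]; exact (zmod3' c0).2.2.1)
      rw [← h, hdc1, h2] at hx
      have hcop : IsCoprime (D : ℤ) (p : ℤ) := by
        rw [Nat.isCoprime_iff_coprime]
        exact ((Nat.Prime.coprime_iff_not_dvd hp).2 hpD).symm
      obtain ⟨a, b, hab⟩ := hcop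
      refine hcube (x ^ 2 * a) ?_
      obtain ⟨k, hk⟩ := hx
      have hk' : x ^ 3 = (D : ℤ) ^ 2 - p * k := by
        have : ((1 : ℕ) : ℤ) * (D : ℤ) ^ 2 - x ^ 3 = p * k := hk
        push_cast at this
        linarith
      have hb : a * D = 1 - b * p := by linarith
      have e1 : (x ^ 2 * a) ^ 3 = (x ^ 3) ^ 2 * a ^ 3 := by ring
      have e2 : (D : ℤ) - ((D : ℤ) ^ 2 - p * k) ^ 2 * a ^ 3 =
          (D : ℤ) - D * (a * D) ^ 3 + p * (2 * D ^ 2 * k * a ^ 3 - p * k ^ 2 * a ^ 3) := by ring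
      rw [e1, hk', e2, hb]
      refine dvd_add ?_ (dvd_mul_right _ _)
      refine ⟨D * (3 * b - 3 * b ^ 2 * p + b ^ 3 * p ^ 2), ?_⟩
      ring

end Pool.Agent.Y261.CT
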