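import Pool.Agent.Y800.Defs

/-!
# Project CT, one more prime: elements of the Galois group
-/

set_option autoImplicit false

namespace Pool.Agent.Y261.CT

open Pool.Agent.Y800 NumberField

/-- the algebraic numbers -/
abbrev QB : Type := AlgebraicClosure ℚ

theorem root_pow {n : ℕ} (hn : 0 < n) {ξ : QB} (hξ : ξ ^ n = 1) (g : GQ) : ∃ s : ℕ, g ξ = ξ ^ s := by
  have h1 := IsPrimitiveRoot.orderOf ξ
  have hpos : 0 < orderOf ξ := orderOf_pos_iff.2 (isOfFinOrder_iff_pow_eq_one.2 ⟨n, hn, hξ⟩)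
  have : NeZero (orderOf ξ) := ⟨hpos.ne'⟩
  have h2 : (g ξ) ^ orderOf ξ = 1 := by rw [← map_pow, pow_orderOf_eq_one, map_one]
  obtain ⟨s, _, hs⟩ := h1.eq_pow_of_pow_eq_one h2
  exact ⟨s, hs.symm⟩

theorem comm_root {n : ℕ} (hn : 0 < n) {ξ : QB} (hξ : ξ ^ n = 1) (σ τ : GQ) :
    σ (τ ξ) = τ (σ ξ) := by
  obtain ⟨s, hs⟩ := root_pow hn hξ σ
  obtain ⟨t, ht⟩ := root_pow hn hξ τ
  rw [ht, hs, map_pow, map_pow, hs, ht, ← pow_mul, ← pow_mul, mul_comm]

theorem exists_prim (n : ℕ) (hn : 0 < n) : ∃ ζ : QB, IsPrimitiveRoot ζ n := by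
  have : NeZero (n : QB) := ⟨by exact_mod_cast hn.ne'⟩
  have h : (Polynomial.cyclotomic n QB).degree ≠ 0 := by
    rw [Polynomial.degree_cyclotomic]
    exact_mod_cast (Nat.totient_pos.2 hn).ne'
  obtain ⟨ζ, hζ⟩ := IsAlgClosed.exists_root _ h
  exact ⟨ζ, Polynomial.isRoot_cyclotomic_iff.1 hζ⟩

theorem conj_gen (F : Type) [Field F] {f : Polynomial F} (hf : Irreducible f) (hm : f.Monic)
    {x y : AlgebraicClosure F} (hx : Polynomial.aeval x f = 0) (hy : Polynomial.aeval y f = 0) :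
    ∃ σ : AbsGal F, σ x = y := by
  refine isConjRoot_iff_exists_algEquiv.1 ?_
  rw [IsConjRoot, ← minpoly.eq_of_irreducible_of_monic hf hx hm,
    ← minpoly.eq_of_irreducible_of_monic hf hy hm]

theorem isOpen_fix_gen (F : Type) [Field F] (x : AlgebraicClosure F) :
    IsOpen {g : AbsGal F | g x = x} :=
  stabilizer_isOpen_of_isIntegral (K := F) x

theorem prim_sum {x : QB} (hx : IsPrimitiveRoot x 3) : x ^ 2 + x + 1 = 0 := by
  have h1 : Polynomial.IsRoot (Polynomial.cyclotomic 3 QB) x :=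
    Polynomial.isRoot_cyclotomic_iff.2 hx
  rw [Polynomial.cyclotomic_three] at h1
  simpa using h1

/-- an element of the derived group which moves a cube root -/
theorem exists_comm (D : ℕ) (hD : D ≠ 0) (hc : ∀ b : ℚ, b ^ 3 ≠ (D : ℚ)) :
    ∃ (g : GQ) (α : QB), α ^ 3 = (D : QB) ∧ g α ≠ α ∧
      ∀ n : ℕ, 0 < n → ∀ ξ : QB, ξ ^ n = 1 → g ξ = ξ := by
  obtain ⟨ω, hω⟩ := exists_prim 3 (by norm_num)
  have hω2 : IsPrimitiveRoot (ω ^ 2) 3 := hω.pow_of_coprime 2 (by norm_num)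
  have hω3 : ω ^ 3 = 1 := hω.pow_eq_one
  have hD' : (D : QB) ≠ 0 := by exact_mod_cast hD
  have : NeZero (3 : ℕ) := ⟨by norm_num⟩
  -- an element which acts on `ω` by inversion
  obtain ⟨τ, hτ⟩ : ∃ τ : GQ, τ ω = ω ^ 2 := by
    refine conj_gen ℚ (Polynomial.cyclotomic.irreducible_rat (by norm_num : 0 < 3))
      (Polynomial.cyclotomic.monic 3 ℚ) ?_ ?_
    · rw [Polynomial.cyclotomic_three]
      simpa using prim_sum hω
    · rw [Polynomial.cyclotomic_three]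
      simpa using prim_sum hω2
  obtain ⟨α₀, hα₀⟩ := IsAlgClosed.exists_pow_nat_eq (D : QB) (by norm_num : 0 < 3)
  have hα₀0 : α₀ ≠ 0 := by
    rintro rfl
    rw [zero_pow (by norm_num)] at hα₀
    exact hD' hα₀.symm
  obtain ⟨j, hj⟩ : ∃ j : ℕ, τ α₀ = ω ^ j * α₀ := by
    have h1 : (τ α₀ / α₀) ^ 3 = 1 := by
      rw [div_pow, ← map_pow, hα₀, map_natCast, div_self hD']
    obtain ⟨j, _, hj⟩ := hω.eq_pow_of_pow_eq_one h1
    exact ⟨j, by rw [hj, div_mul_cancel₀ _ hα₀0]⟩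
  set α := ω ^ (2 * j) * α₀ with hα
  have hα3 : α ^ 3 = (D : QB) := by
    rw [hα, mul_pow, hα₀, ← pow_mul, mul_comm, show 2 * j * 3 = 3 * (2 * j) by ring, pow_mul, hω3,
      one_pow, mul_one]
  have hα0 : α ≠ 0 := by
    intro h
    rw [h, zero_pow (by norm_num)] at hα3
    exact hD' hα3.symm
  have hτα : τ α = α := by
    rw [hα, map_mul, map_pow, hτ, hj, ← mul_assoc, ← pow_mul, ← pow_add]
    congr 1
    rw [show 2 * (2 * j) + j = 3 * j + 2 * j by ring, pow_add, pow_mul, hω3, one_pow, one_mul]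
  have hirr : Irreducible (Polynomial.X ^ 3 - Polynomial.C (D : ℚ)) :=
    X_pow_sub_C_irreducible_of_prime Nat.prime_three hc
  obtain ⟨σ, hσ⟩ : ∃ σ : GQ, σ α = ω * α := by
    refine conj_gen ℚ hirr (Polynomial.monic_X_pow_sub_C _ (by norm_num)) ?_ ?_
    · simp [hα3]
    · simp [mul_pow, hω3, hα3]
  refine ⟨τ * σ * (σ * τ)⁻¹, ω * α, by rw [mul_pow, hω3, hα3, one_mul], ?_, ?_⟩
  · have h1 : (σ * τ) α = ω * α := by
      rw [AlgEquiv.mul_apply, hτα, hσ]
    have h2 : (τ * σ * (σ * τ)⁻¹) (ω * α) = ω ^ 2 * α := by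
      rw [← h1, ← AlgEquiv.mul_apply, inv_mul_cancel_right, AlgEquiv.mul_apply, hσ, map_mul, hτ, hτα]
    rw [h2]
    intro h3
    have h4 := mul_right_cancel₀ hα0 h3
    have hω0 : ω ≠ 0 := hω.ne_zero (by norm_num)
    have h5 : ω = 1 := by
      rw [sq] at h4
      exact mul_right_cancel₀ hω0 (h4.trans (one_mul ω).symm)
    exact hω.ne_one (by norm_num) h5
  · intro n hn ξ hξ
    have h1 : ((σ * τ)⁻¹ ξ) ^ n = 1 := by rw [← map_pow, hξ, map_one]
    rw [AlgEquiv.mul_apply, AlgEquiv.mul_apply, ← comm_root hn h1 σ τ, ← AlgEquiv.mul_apply,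
      ← AlgEquiv.mul_apply, mul_inv_cancel]
    rfl

/-- the subgroup fixing a set -/
def fixU (R : Set QB) : Subgroup GQ where
  carrier := {g | ∀ x ∈ R, g x = x}
  mul_mem' := by
    intro a b ha hb x hx
    rw [AlgEquiv.mul_apply, hb x hx, ha x hx]
  one_mem' := fun x _ => rfl
  inv_mem' := by
    intro g hg x hx
    have h1 : g⁻¹ (g x) = x := by
      rw [← AlgEquiv.mul_apply, inv_mul_cancel]
      rfl
    have h2 : g x = x := hg x hx
    rwa [h2] at h1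

theorem fixU_normal {R : Set QB} (hR : ∀ (g : GQ), ∀ x ∈ R, g x ∈ R) : (fixU R).Normal := by
  refine ⟨fun u hu g x hx => ?_⟩
  rw [AlgEquiv.mul_apply, AlgEquiv.mul_apply, hu _ (hR g⁻¹ x hx), ← AlgEquiv.mul_apply,
    mul_inv_cancel]
  rfl

theorem isOpen_fix (x : QB) : IsOpen {g : GQ | g x = x} :=
  isOpen_fix_gen ℚ x

theorem fixU_open {R : Set QB} (hR : R.Finite) : IsOpen (fixU R : Set GQ) := by
  have h1 : (fixU R : Set GQ) = ⋂ x ∈ R, {g : GQ | g x = x} := by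
    ext g
    simp only [Set.mem_iInter]
    rfl
  rw [h1]
  exact hR.isOpen_biInter fun x _ => isOpen_fix x

theorem finite_roots (n : ℕ) (hn : 0 < n) (a : QB) : {x : QB | x ^ n = a}.Finite := by
  classical
  refine (Finset.finite_toSet (Polynomial.nthRoots n a).toFinset).subset fun x hx => ?_
  rw [Finset.mem_coe, Multiset.mem_toFinset, Polynomial.mem_nthRoots hn]
  exact hx

/-- roots of unity congruent to `1` -/
theorem root_one {P : Ideal ZBar} {M : ℕ} (hM : (M : ZBar) ∉ P) {η : ZBar}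
    (hη : η ^ M = 1) (h : η - 1 ∈ P) : η = 1 := by
  by_contra hne
  have h1 : (∑ i ∈ Finset.range M, η ^ i) * (η - 1) = 0 := by
    rw [geom_sum_mul, hη, sub_self]
  have h2 := (mul_eq_zero.1 h1).resolve_right (sub_ne_zero.2 hne)
  apply hM
  have h3 : (M : ZBar) = -∑ i ∈ Finset.range M, (η ^ i - 1) := by
    rw [Finset.sum_sub_distrib, h2]
    simp
  rw [h3]
  refine P.neg_mem (P.sum_mem fun i _ => ?_)
  exact P.mem_of_dvd (sub_one_dvd_pow_sub_one η i) h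

end Pool.Agent.Y261.CT
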