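import Pool.Agent.Y703.CT.StmA
import Pool.Agent.Y800.Frob2
import Pool.Agent.Y261.CT.Comb
import Pool.Agent.Y261.CT.Gal

/-!
# Project CT, statement S_INF: one more prime
-/

set_option autoImplicit false

namespace Pool.Agent.Y261.CT

open Pool.Agent.Y703.CT Pool.Agent.Y800 NumberField

theorem not_mem_of_not_dvd {P : Ideal ZBar} (hP : P.IsMaximal) {p : ℕ} (hp : p.Prime)
    (hpP : (p : ZBar) ∈ P) {n : ℕ} (hn : ¬ p ∣ n) : (n : ZBar) ∉ P := by
  intro h
  have h1 : IsCoprime (p : ℤ) (n : ℤ) :=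
    Nat.isCoprime_iff_coprime.2 ((Nat.Prime.coprime_iff_not_dvd hp).2 hn)
  obtain ⟨a, b, hab⟩ := h1
  apply hP.ne_top
  rw [Ideal.eq_top_iff_one]
  have h2 : (1 : ZBar) = (a : ZBar) * (p : ZBar) + (b : ZBar) * (n : ZBar) := by
    have := congrArg (Int.cast : ℤ → ZBar) hab
    push_cast at this
    exact this.symm
  rw [h2]
  exact P.add_mem (P.mul_mem_left _ hpP) (P.mul_mem_left _ h)

/-- an algebraic integer from an equation -/
theorem int_of_pow {n : ℕ} (hn : 0 < n) {x : QB} {a : ℕ} (h : x ^ n = (a : QB)) : IsIntegral ℤ x := by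
  refine IsIntegral.of_pow hn ?_
  rw [h]
  exact isIntegral_algebraMap (R := ℤ) (A := QB) (x := (a : ℤ)) |> fun h => by simpa using h

/-- the inclusion -/
noncomputable def cc : ZBar →+* QB := algebraMap (𝓞 (AlgebraicClosure ℚ)) (AlgebraicClosure ℚ)

theorem cc_inj {x y : ZBar} (h : cc x = cc y) : x = y := RingOfIntegers.ext h

theorem coe_sm (σ : GQ) (x : ZBar) : cc (σ • x) = σ (cc x) := rfl

/-- roots of unity fixed by Frobenius -/
theorem modEq_of_fix {P : Ideal ZBar} (hP : P.IsMaximal) {p M : ℕ} (hp : p.Prime)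
    (hpP : (p : ZBar) ∈ P) (hM : ¬ p ∣ M) (hM0 : 0 < M) {φ : GQ}
    (hφ : ∀ x : ZBar, φ • x - x ^ p ∈ P) (hfix : ∀ ξ : QB, ξ ^ M = 1 → φ ξ = ξ) :
    p ≡ 1 [MOD M] := by
  obtain ⟨ζ, hζ⟩ := exists_prim M hM0
  have hζM : ζ ^ M = 1 := hζ.pow_eq_one
  have hint : IsIntegral ℤ ζ := int_of_pow hM0 (a := 1) (by simpa using hζM)
  set z : ZBar := ⟨ζ, hint⟩ with hz
  have hzc : cc z = ζ := rfl
  have hzM : z ^ M = 1 := by
    apply cc_inj
    rw [map_pow, map_one, hzc, hζM]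
  have h1 := hφ z
  have h2 : φ • z = z := by
    apply cc_inj
    rw [coe_sm, hzc, hfix ζ hζM]
  rw [h2] at h1
  have hp1 : p = (p - 1) + 1 := by
    have := hp.pos
    omega
  have h3 : z * (z ^ (p - 1) - 1) ∈ P := by
    have h4 : z * (z ^ (p - 1) - 1) = -(z - z ^ p) := by
      conv_rhs => rw [hp1, pow_succ]
      ring
    rw [h4]
    exact P.neg_mem h1
  have hprime := hP.isPrime
  have h5 : z ∉ P := by
    intro h
    apply hP.ne_top
    rw [Ideal.eq_top_iff_one, ← hzM]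
    exact P.pow_mem_of_mem h M hM0
  have h6 : z ^ (p - 1) - 1 ∈ P := (hprime.mem_or_mem h3).resolve_left h5
  have h7 := root_one (not_mem_of_not_dvd hP hp hpP hM)
    (by rw [← pow_mul, mul_comm, pow_mul, hzM, one_pow]) h6
  have h8 : ζ ^ (p - 1) = 1 := by
    have := congrArg cc h7
    rwa [map_pow, map_one, hzc] at this
  have h9 := hζ.dvd_of_pow_eq_one _ h8
  exact ((Nat.modEq_iff_dvd' hp.pos).2 h9).symm

/-- cube roots of cubes modulo `p` are fixed by Frobenius -/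
theorem fix_cube {P : Ideal ZBar} (hP : P.IsMaximal) {p : ℕ} (hp : p.Prime)
    (hpP : (p : ZBar) ∈ P) (hp3 : ¬ p ∣ 3) (hp1 : p ≡ 1 [MOD 3]) {D : ℕ} (hpD : ¬ p ∣ D) {φ : GQ}
    (hφ : ∀ x : ZBar, φ • x - x ^ p ∈ P) {x : ℤ} (hx : (p : ℤ) ∣ (D : ℤ) - x ^ 3)
    (β : QB) (hβ : β ^ 3 = (D : QB)) : φ β = β := by
  have hprime := hP.isPrime
  have hD0 : (D : QB) ≠ 0 := by
    have : D ≠ 0 := by
      rintro rfl
      exact hpD (dvd_zero _)
    exact_mod_cast this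
  have hβ0 : β ≠ 0 := by
    rintro rfl
    rw [zero_pow (by norm_num)] at hβ
    exact hD0 hβ.symm
  have hint : IsIntegral ℤ β := int_of_pow (by norm_num) hβ
  set b : ZBar := ⟨β, hint⟩ with hb
  have hbc : cc b = β := rfl
  have hb3 : b ^ 3 = (D : ZBar) := by
    apply cc_inj
    rw [map_pow, map_natCast, hbc, hβ]
  obtain ⟨ω, hω⟩ := exists_prim 3 (by norm_num)
  have hω3 : ω ^ 3 = 1 := hω.pow_eq_one
  have hωi : IsIntegral ℤ ω := int_of_pow (by norm_num : 0 < 3) (a := 1) (by simpa using hω3)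
  set w : ZBar := ⟨ω, hωi⟩ with hw
  have hwc : cc w = ω := rfl
  have hw3 : w ^ 3 = 1 := by
    apply cc_inj
    rw [map_pow, map_one, hwc, hω3]
  have hw1 : w ^ 2 + w + 1 = 0 := by
    apply cc_inj
    rw [map_add, map_add, map_pow, map_one, map_zero, hwc, prim_sum hω]
  -- factorization
  have hcast : ∀ n : ℤ, (p : ℤ) ∣ n → (n : ZBar) ∈ P := by
    rintro n ⟨k, rfl⟩
    push_cast
    exact P.mul_mem_right _ hpP
  have h1 : b ^ 3 - (x : ZBar) ^ 3 ∈ P := by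
    have := hcast _ hx
    push_cast at this
    rwa [hb3]
  have h2 : (b - x) * ((b - w * x) * (b - w ^ 2 * x)) = b ^ 3 - (x : ZBar) ^ 3 := by
    linear_combination (-(b ^ 2 * (x : ZBar)) + b * (x : ZBar) ^ 2 * w) * hw1 - (x : ZBar) ^ 3 * hw3
  have h3 : ∃ k : ℕ, b - w ^ k * x ∈ P := by
    rw [← h2] at h1
    rcases hprime.mem_or_mem h1 with h | h
    · exact ⟨0, by simpa using h⟩
    rcases hprime.mem_or_mem h with h | h
    · exact ⟨1, by simpa using h⟩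
    · exact ⟨2, h⟩
  obtain ⟨k, hk⟩ := h3
  have hwp : w ^ p = w := by
    obtain ⟨m, hm⟩ : ∃ m, p = 3 * m + 1 := by
      have h5 : p % 3 = 1 := hp1
      exact ⟨p / 3, by omega⟩
    rw [hm, pow_succ, pow_mul, hw3, one_pow, one_mul]
  have hxp : (x : ZBar) ^ p - x ∈ P := by
    have h5 : (p : ℤ) ∣ x ^ p - x := by
      have : Fact p.Prime := ⟨hp⟩
      rw [← ZMod.intCast_zmod_eq_zero_iff_dvd]
      push_cast
      rw [ZMod.pow_card, sub_self]
    have := hcast _ h5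
    push_cast at this
    exact this
  have h4 : b ^ p - b ∈ P := by
    have e1 : b ^ p - (w ^ k * x) ^ p ∈ P := P.mem_of_dvd (sub_dvd_pow_sub_pow _ _ p) hk
    have e2 : (w ^ k * (x : ZBar)) ^ p - w ^ k * x ∈ P := by
      have e3 : (w ^ k * (x : ZBar)) ^ p - w ^ k * x = w ^ k * ((x : ZBar) ^ p - x) := by
        rw [mul_pow, ← pow_mul, mul_comm k p, pow_mul, hwp]
        ring
      rw [e3]
      exact P.mul_mem_left _ hxp
    have e4 : b ^ p - b = (b ^ p - (w ^ k * x) ^ p) + ((w ^ k * (x : ZBar)) ^ p - w ^ k * x) -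
        (b - w ^ k * x) := by ring
    rw [e4]
    exact P.sub_mem (P.add_mem e1 e2) hk
  have h6 : φ • b - b ∈ P := by
    have := P.add_mem (hφ b) h4
    rwa [sub_add_sub_cancel] at this
  -- the quotient is a root of unity
  have h7 : (φ β / β) ^ 3 = 1 := by
    rw [div_pow, ← map_pow, hβ, map_natCast, div_self hD0]
  have hei : IsIntegral ℤ (φ β / β) :=
    int_of_pow (by norm_num : 0 < 3) (a := 1) (by simpa using h7)
  set e : ZBar := ⟨φ β / β, hei⟩ with he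
  have hec : cc e = φ β / β := rfl
  have he3 : e ^ 3 = 1 := by
    apply cc_inj
    rw [map_pow, map_one, hec, h7]
  have h8 : φ • b = e * b := by
    apply cc_inj
    rw [coe_sm, map_mul, hec, hbc, div_mul_cancel₀ _ hβ0]
  have h9 : (e - 1) * b ∈ P := by
    rw [sub_mul, one_mul, ← h8]
    exact h6
  have h10 : b ∉ P := by
    intro h
    have := P.pow_mem_of_mem h 3 (by norm_num)
    rw [hb3] at this
    exact not_mem_of_not_dvd hP hp hpP hpD this
  have h11 := (hprime.mem_or_mem h9).resolve_right h10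
  have h12 := root_one (not_mem_of_not_dvd hP hp hpP hp3) he3 h11
  rw [h12, one_mul] at h8
  exact congrArg cc h8

/-- Chebotarev: primes `1` modulo `M` for which `D` is not a cube -/
theorem exists_prime (D : ℕ) (hD : D ≠ 0) (hc : ∀ b : ℚ, b ^ 3 ≠ (D : ℚ)) (S : Finset ℕ) :
    ∃ p : ℕ, p.Prime ∧ p ∉ S ∧ ¬ p ∣ D ∧ p ≡ 1 [MOD (9 * D)] ∧
      ∀ x : ℤ, ¬ (p : ℤ) ∣ (D : ℤ) - x ^ 3 := by
  classical
  obtain ⟨g, α, hα3, hgα, hg⟩ := exists_comm D hD hc
  have hM0 : 0 < 9 * D := by omega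
  set R : Set QB := {x | x ^ (9 * D) = 1} ∪ {x | x ^ 3 = (D : QB)} with hR
  have hRf : R.Finite := (finite_roots _ hM0 1).union (finite_roots 3 (by norm_num) _)
  have hRs : ∀ (g : GQ), ∀ x ∈ R, g x ∈ R := by
    rintro g x (hx | hx)
    · left
      have hx' : x ^ (9 * D) = 1 := hx
      show (g x) ^ (9 * D) = 1
      rw [← map_pow, hx', map_one]
    · right
      have hx' : x ^ 3 = (D : QB) := hx
      show (g x) ^ 3 = (D : QB)
      rw [← map_pow, hx', map_natCast]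
  have hn : (fixU R).Normal := fixU_normal hRs
  obtain ⟨p, hp, hpS, P, hP, hpP, σ, hσ, τ, hτ⟩ :=
    exists_frob (fixU R) (fixU_open hRf) (S ∪ (9 * D).primeFactors) g
  have hpM : ¬ p ∣ 9 * D := by
    intro h
    exact hpS (Finset.mem_union_right _ (Nat.mem_primeFactors.2 ⟨hp, h, hM0.ne'⟩))
  have hact : ∀ x ∈ R, τ (σ (τ⁻¹ x)) = g x := by
    intro x hx
    have h1 : (τ * σ * τ⁻¹ * g⁻¹) (g x) = g x := hτ _ (hRs g x hx)
    rw [← AlgEquiv.mul_apply, inv_mul_cancel_right] at h1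
    exact h1
  have hφ := arith_of_geom hσ
  have hinv : ∀ x : QB, σ⁻¹ (σ x) = x := fun x => by
    rw [← AlgEquiv.mul_apply, inv_mul_cancel]
    rfl
  have hinvt : ∀ x : QB, τ⁻¹ (τ x) = x := fun x => by
    rw [← AlgEquiv.mul_apply, inv_mul_cancel]
    rfl
  have hinvt' : ∀ x : QB, τ (τ⁻¹ x) = x := fun x => by
    rw [← AlgEquiv.mul_apply, mul_inv_cancel]
    rfl
  have hinvs' : ∀ x : QB, σ (σ⁻¹ x) = x := fun x => by
    rw [← AlgEquiv.mul_apply, mul_inv_cancel]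
    rfl
  have hfix : ∀ ξ : QB, ξ ^ (9 * D) = 1 → σ⁻¹ ξ = ξ := by
    intro ξ hξ
    have h1 : (τ ξ) ^ (9 * D) = 1 := by rw [← map_pow, hξ, map_one]
    have h2 := hact (τ ξ) (Or.inl h1)
    rw [hinvt, hg _ hM0 _ h1] at h2
    have h3 := τ.injective h2
    conv_lhs => rw [← h3]
    exact hinv ξ
  have hmod : p ≡ 1 [MOD (9 * D)] := modEq_of_fix hP hp hpP hpM hM0 hφ hfix
  have hp3 : ¬ p ∣ 3 := fun h => hpM (h.trans ⟨3 * D, by ring⟩)
  have hpD : ¬ p ∣ D := fun h => hpM (h.trans (dvd_mul_left _ _))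
  refine ⟨p, hp, fun h => hpS (Finset.mem_union_left _ h), hpD, hmod, fun x hx => ?_⟩
  have hmod3 : p ≡ 1 [MOD 3] := hmod.of_dvd ⟨3 * D, by ring⟩
  have hβ : (τ⁻¹ α) ^ 3 = (D : QB) := by rw [← map_pow, hα3, map_natCast]
  have h1 := fix_cube hP hp hpP hp3 hmod3 hpD hφ hx _ hβ
  have h2 : σ (τ⁻¹ α) = τ⁻¹ α := by
    conv_lhs => rw [← h1]
    exact hinvs' _
  have h3 := hact α (Or.inr hα3)
  rw [h2, hinvt'] at h3
  exact hgα h3.symm

/-- `D` is not a cube -/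
theorem not_cube {D q : ℕ} (hB : Base D) (hq : q.Prime) (hqD : q ∣ D) (b : ℚ) :
    b ^ 3 ≠ (D : ℚ) := by
  intro h
  obtain ⟨h0, _, hcf⟩ := hB
  have h1 : IsIntegral ℤ b := by
    refine IsIntegral.of_pow (by norm_num : 0 < 3) ?_
    rw [h]
    exact isIntegral_algebraMap (R := ℤ) (A := ℚ) (x := (D : ℤ)) |> fun h => by simpa using h
  obtain ⟨n, hn⟩ := IsIntegrallyClosed.isIntegral_iff.1 h1
  have h2 : n ^ 3 = (D : ℤ) := by
    have h3 : (b : ℚ) = (n : ℚ) := hn.symm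
    rw [h3] at h
    exact_mod_cast h
  have h3 : (q : ℤ) ∣ n := by
    have h4 : (q : ℤ) ∣ n ^ 3 := by
      rw [h2]
      exact_mod_cast hqD
    exact (Nat.prime_iff_prime_int.1 hq).dvd_of_dvd_pow h4
  have h5 : ((q ^ 3 : ℕ) : ℤ) ∣ (D : ℤ) := by
    rw [← h2]
    push_cast
    exact pow_dvd_pow_of_dvd h3 3
  exact hcf q hq (by exact_mod_cast h5)

/-- CT-INF: one more prime. -/
theorem t_inf : S_INF := by
  intro D hD hN hfin
  obtain ⟨hB, _, _, q, hq, _, hqD, _⟩ := id hD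
  obtain ⟨p, hp, hpS, hpD, hmod, hcube⟩ := exists_prime D hB.1 (not_cube hB hq hqD) hfin.toFinset
  obtain ⟨h1, h2⟩ := cls_mul hD hp hpD hmod
  exact hpS (hfin.mem_toFinset.2 ⟨hp, h2, hpD, h1, noSplit_mul hB.1 hN hp hpD hmod hcube⟩)

end Pool.Agent.Y261.CT
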